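import Mathlib
import Pool.Agent.Promotion.Core

/-!
# The chain maximises the degree of noninvertibility of extended promotion
-/

namespace Pool.Agent.Results.MP_180e15_co.ChainExtremal

/-- A labeling of the finite poset `P` with `n` elements: a bijection from `P` to `Fin n`.
The label `i : Fin n = {0, ..., n - 1}` stands for the label `i + 1` in `[n] = {1, ..., n}`. -/
abbrev Labeling (P : Type*) [Fintype P] := P ≃ Fin (Fintype.card P)

section Defs

variable {P : Type*} [Fintype P] [PartialOrder P]

/-- The `L`-successor of `x`: the element above `x` having the smallest label.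
(If `x` is maximal there is none, and the value is `x` itself.) -/
noncomputable def succ (L : Labeling P) (x : P) : P := by
  classical
  exact if h : {y : P | x < y}.Nonempty then Function.argminOn L {y : P | x < y} h else x

variable [Nonempty P]

/-- The promotion chain `v_1 < v_2 < ... < v_m` of `L`: `vchain L k` is `v_{k+1}`. It starts at the
element with the smallest label, each next element is the `L`-successor of the previous one, and
it stays constant once a maximal element `v_m` is reached. -/
noncomputable def vchain (L : Labeling P) (k : ℕ) : P :=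
  (succ L)^[k] (L.symm ⟨0, Fintype.card_pos⟩)

/-- `x` is one of the elements `v_1, ..., v_m` of the promotion chain of `L`. -/
def OnChain (L : Labeling P) (x : P) : Prop := ∃ k, vchain L k = x

/-- The label of `x` lowered by one. -/
def lower (L : Labeling P) (x : P) : Fin (Fintype.card P) :=
  ⟨(L x : ℕ) - 1, lt_of_le_of_lt (Nat.sub_le _ _) (L x).isLt⟩

/-- The label of `x` after extended promotion: `L x - 1` off the promotion chain,
`L (v_{i+1}) - 1` at `v_i` for `i < m`, and the largest label at `v_m`. -/
noncomputable def promoteFun (L : Labeling P) (x : P) : Fin (Fintype.card P) := by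
  classical
  exact if OnChain L x then
      if IsMax x then ⟨Fintype.card P - 1, Nat.sub_lt Fintype.card_pos one_pos⟩
      else lower L (succ L x)
    else lower L x

omit [Nonempty P] in
lemma lt_succ {L : Labeling P} {x : P} (hx : ¬ IsMax x) : x < succ L x := by
  classical
  rw [not_isMax_iff] at hx
  have h : {y : P | x < y}.Nonempty := hx
  unfold succ
  rw [dif_pos h]
  exact Function.argminOn_mem L {y : P | x < y} h

omit [Nonempty P] in
lemma succ_le {L : Labeling P} {x y : P} (hxy : x < y) : L (succ L x) ≤ L y := by
  classical
  have h : {y : P | x < y}.Nonempty := ⟨y, hxy⟩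
  unfold succ
  rw [dif_pos h]
  exact Function.argminOn_le L {y : P | x < y} hxy

omit [Nonempty P] in
lemma succ_of_isMax {L : Labeling P} {x : P} (hx : IsMax x) : succ L x = x := by
  classical
  unfold succ
  rw [dif_neg]
  rintro ⟨y, hy⟩
  exact absurd hy hx.not_lt

lemma vchain_succ (L : Labeling P) (k : ℕ) : vchain L (k + 1) = succ L (vchain L k) := by
  unfold vchain
  rw [Function.iterate_succ_apply']

lemma vchain_mono (L : Labeling P) : Monotone (vchain L) := by
  refine monotone_nat_of_le_succ (fun k => ?_)
  rw [vchain_succ]
  by_cases h : IsMax (vchain L k)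
  · rw [succ_of_isMax h]
  · exact (lt_succ h).le

lemma label_vchain_zero (L : Labeling P) : (L (vchain L 0) : ℕ) = 0 := by
  unfold vchain
  simp

lemma onChain_vchain (L : Labeling P) (k : ℕ) : OnChain L (vchain L k) := ⟨k, rfl⟩

lemma onChain_succ {L : Labeling P} {x : P} (hx : OnChain L x) : OnChain L (succ L x) := by
  obtain ⟨k, rfl⟩ := hx
  exact ⟨k + 1, vchain_succ L k⟩

lemma label_pos_of_not_onChain {L : Labeling P} {x : P} (hx : ¬ OnChain L x) : 0 < (L x : ℕ) := by
  rcases Nat.eq_zero_or_pos (L x : ℕ) with h | h
  · exfalso
    apply hx
    refine ⟨0, L.injective (Fin.ext ?_)⟩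
    rw [label_vchain_zero, h]
  · exact h

lemma label_pos_of_succ {L : Labeling P} {x : P} (hx : OnChain L x) (hm : ¬ IsMax x) :
    0 < (L (succ L x) : ℕ) := by
  obtain ⟨k, rfl⟩ := hx
  rcases Nat.eq_zero_or_pos (L (succ L (vchain L k)) : ℕ) with h | h
  · exfalso
    have h1 : succ L (vchain L k) = vchain L 0 := by
      refine L.injective (Fin.ext ?_)
      rw [label_vchain_zero, h]
    have h2 : vchain L 0 ≤ vchain L k := vchain_mono L (Nat.zero_le k)
    have h3 : vchain L k < succ L (vchain L k) := lt_succ hm
    rw [h1] at h3
    exact absurd h3 (not_lt_of_ge h2)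
  · exact h

/-- two members of the chain with `x < y` satisfy `succ x ≤ y` -/
lemma succ_le_of_lt {L : Labeling P} {x y : P} (hx : OnChain L x) (hy : OnChain L y) (hxy : x < y) :
    succ L x ≤ y := by
  obtain ⟨i, rfl⟩ := hx
  obtain ⟨j, rfl⟩ := hy
  have hij : i < j := by
    by_contra h
    rw [not_lt] at h
    exact absurd hxy (not_lt_of_ge (vchain_mono L h))
  rw [← vchain_succ]
  exact vchain_mono L hij

lemma onChain_comparable {L : Labeling P} {x y : P} (hx : OnChain L x) (hy : OnChain L y) :
    x ≤ y ∨ y ≤ x := by
  obtain ⟨i, rfl⟩ := hx
  obtain ⟨j, rfl⟩ := hy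
  rcases le_total i j with h | h
  · exact Or.inl (vchain_mono L h)
  · exact Or.inr (vchain_mono L h)

lemma promoteFun_off {L : Labeling P} {x : P} (hx : ¬ OnChain L x) :
    (promoteFun L x : ℕ) = (L x : ℕ) - 1 := by
  unfold promoteFun
  rw [if_neg hx]
  rfl

lemma promoteFun_on {L : Labeling P} {x : P} (hx : OnChain L x) (hm : ¬ IsMax x) :
    (promoteFun L x : ℕ) = (L (succ L x) : ℕ) - 1 := by
  unfold promoteFun
  rw [if_pos hx, if_neg hm]
  rfl

lemma promoteFun_max {L : Labeling P} {x : P} (hx : OnChain L x) (hm : IsMax x) :
    (promoteFun L x : ℕ) = Fintype.card P - 1 := by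
  unfold promoteFun
  rw [if_pos hx, if_pos hm]

/-- the value `promoteFun L` at a non-final element is not the largest label -/
lemma promoteFun_lt {L : Labeling P} {x : P} (hx : ¬ (OnChain L x ∧ IsMax x)) :
    (promoteFun L x : ℕ) + 1 < Fintype.card P := by
  by_cases h : OnChain L x
  · have hm : ¬ IsMax x := fun hm => hx ⟨h, hm⟩
    rw [promoteFun_on h hm]
    have h1 := label_pos_of_succ h hm
    have h2 := (L (succ L x)).isLt
    omega
  · rw [promoteFun_off h]
    have h1 := label_pos_of_not_onChain h
    have h2 := (L x).isLt
    omega

lemma promoteFun_injective (L : Labeling P) : Function.Injective (promoteFun L) := by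
  have main : ∀ x y : P, promoteFun L x = promoteFun L y → OnChain L x → x = y := by
    intro x y hxy hx
    have hval : (promoteFun L x : ℕ) = promoteFun L y := by rw [hxy]
    have hc : 0 < Fintype.card P := Fintype.card_pos
    by_cases hmx : IsMax x
    · by_cases hy : OnChain L y ∧ IsMax y
      · rcases onChain_comparable hx hy.1 with h | h
        · exact (hmx.eq_of_le h)
        · exact (hy.2.eq_of_le h).symm
      · have h1 := promoteFun_lt hy
        rw [← hval, promoteFun_max hx hmx] at h1
        omega
    · by_cases hy : OnChain L y
      · by_cases hmy : IsMax y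
        · have h1 := promoteFun_lt (L := L) (x := x) (fun h => hmx h.2)
          rw [hval, promoteFun_max hy hmy] at h1
          omega
        · rw [promoteFun_on hx hmx, promoteFun_on hy hmy] at hval
          have h1 := label_pos_of_succ hx hmx
          have h2 := label_pos_of_succ hy hmy
          have h3 : succ L x = succ L y := L.injective (Fin.ext (by omega))
          by_contra hne
          rcases onChain_comparable hx hy with h | h
          · have h4 := succ_le_of_lt hx hy (lt_of_le_of_ne h hne)
            rw [h3] at h4
            exact absurd (lt_succ (L := L) hmy) (not_lt_of_ge h4)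
          · have h4 := succ_le_of_lt hy hx (lt_of_le_of_ne h (Ne.symm hne))
            rw [← h3] at h4
            exact absurd (lt_succ (L := L) hmx) (not_lt_of_ge h4)
      · exfalso
        rw [promoteFun_on hx hmx, promoteFun_off hy] at hval
        have h1 := label_pos_of_succ hx hmx
        have h2 := label_pos_of_not_onChain hy
        have h3 : succ L x = y := L.injective (Fin.ext (by omega))
        exact hy (h3 ▸ onChain_succ hx)
  intro x y hxy
  by_cases hx : OnChain L x
  · exact main x y hxy hx
  · by_cases hy : OnChain L y
    · exact (main y x hxy.symm hy).symm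
    · have hval : (promoteFun L x : ℕ) = promoteFun L y := by rw [hxy]
      rw [promoteFun_off hx, promoteFun_off hy] at hval
      have h1 := label_pos_of_not_onChain hx
      have h2 := label_pos_of_not_onChain hy
      exact L.injective (Fin.ext (by omega))

/-- Extended promotion, as a map from labelings to labelings. -/
noncomputable def promotion (L : Labeling P) : Labeling P :=
  Equiv.ofBijective (promoteFun L)
    ((Fintype.bijective_iff_injective_and_card _).mpr
      ⟨promoteFun_injective L, (Fintype.card_fin _).symm⟩)

end Defs

/-- The degree of noninvertibility of a self-map of a finite set. -/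
noncomputable def degNI {X : Type*} [Fintype X] (f : X → X) : ℚ :=
  (∑ x : X, (Nat.card {y : X // f y = x} : ℚ) ^ 2) / Fintype.card X

section Main

variable {P : Type*} [Fintype P] [PartialOrder P] [DecidableEq P] [Nonempty P]

open Pool.Agent.Promotion

/-- the list of the elements of `P` in the order of their labels -/
noncomputable def lst (M : Labeling P) : List P := List.ofFn M.symm

omit [PartialOrder P] [Nonempty P] in
lemma lst_mem_ord (M : Labeling P) : lst M ∈ ord (Finset.univ : Finset P) := by
  rw [mem_ord]
  refine ⟨List.nodup_ofFn.mpr M.symm.injective, fun x => ?_⟩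
  unfold lst
  rw [List.mem_ofFn]
  simp only [Finset.mem_univ, iff_true]
  exact ⟨M x, by simp⟩

omit [PartialOrder P] [DecidableEq P] [Nonempty P] in
lemma lst_injective : Function.Injective (lst : Labeling P → List P) := by
  intro M N h
  unfold lst at h
  have h1 := List.ofFn_injective h
  have h2 : M.symm = N.symm := Equiv.ext (fun i => congrFun h1 i)
  have h3 := congrArg Equiv.symm h2
  simpa using h3

omit [DecidableEq P] in
lemma promotion_apply (L : Labeling P) (x : P) : promotion L x = promoteFun L x := rfl

open Classical in
/-- the promotion chain as a finite set -/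
noncomputable def chainSet (L : Labeling P) : Finset P := Finset.univ.filter (OnChain L)

omit [DecidableEq P] in
lemma mem_chainSet {L : Labeling P} {x : P} : x ∈ chainSet L ↔ OnChain L x := by
  unfold chainSet
  simp

omit [DecidableEq P] in
lemma promote_lt {L : Labeling P} {z y : P} (hz : OnChain L z) (hzy : z < y) :
    (promoteFun L z : ℕ) < promoteFun L y := by
  have hmz : ¬ IsMax z := fun h => absurd hzy h.not_lt
  have h1 := label_pos_of_succ hz hmz
  have h2 : (L (succ L z) : ℕ) ≤ L y := succ_le (L := L) hzy
  rw [promoteFun_on hz hmz]
  by_cases hy : OnChain L y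
  · by_cases hmy : IsMax y
    · rw [promoteFun_max hy hmy]
      have h3 := (L (succ L z)).isLt
      omega
    · rw [promoteFun_on hy hmy]
      have h3 : succ L z < succ L y := lt_of_le_of_lt (succ_le_of_lt hz hy hzy) (lt_succ hmy)
      have h4 : (L (succ L z) : ℕ) ≤ L (succ L y) := succ_le (L := L) (lt_trans hzy (lt_succ hmy))
      have h5 : (L (succ L z) : ℕ) ≠ L (succ L y) := fun h => h3.ne (L.injective (Fin.ext h))
      omega
  · rw [promoteFun_off hy]
    have h5 : (L (succ L z) : ℕ) ≠ L y := by
      intro h
      have h6 : succ L z = y := L.injective (Fin.ext h)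
      exact hy (h6 ▸ onChain_succ hz)
    omega

lemma chainSet_mem_cset (L : Labeling P) : chainSet L ∈ cset (lst (promotion L)) := by
  have hmem : ∀ x, x ∈ lst (promotion L) := by
    intro x
    exact ((mem_ord.mp (lst_mem_ord (promotion L))).2 x).mpr (Finset.mem_univ x)
  refine mem_cset.mpr ⟨?_, ?_, ?_, ?_⟩
  · intro x _
    rw [List.mem_toFinset]
    exact hmem x
  · intro x hx y hy _
    exact onChain_comparable (mem_chainSet.mp hx) (mem_chainSet.mp hy)
  · intro z hz
    refine ⟨hmem z, fun y hzy hb => ?_⟩
    have hz' := mem_chainSet.mp hz
    have hpw : (lst (promotion L)).Pairwise (fun a b => promotion L a < promotion L b) := by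
      unfold lst
      rw [List.pairwise_ofFn]
      intro i j hij
      simpa using hij
    have h2 := List.Pairwise.sublist hb hpw
    rw [List.pairwise_cons] at h2
    have h3 : promotion L y < promotion L z := h2.1 z (by simp)
    have h4 := promote_lt hz' hzy
    rw [promotion_apply, promotion_apply, Fin.lt_def] at h3
    omega
  · have hc : 0 < Fintype.card P := Fintype.card_pos
    refine ⟨(promotion L).symm ⟨Fintype.card P - 1, by omega⟩, ?_, ?_⟩
    · rw [mem_chainSet]
      by_contra hcon
      have h1 := promoteFun_lt (L := L) (x := (promotion L).symm ⟨Fintype.card P - 1, by omega⟩)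
        (fun h => hcon h.1)
      rw [← promotion_apply, Equiv.apply_symm_apply] at h1
      simp only at h1
      omega
    · have hne : lst (promotion L) ≠ [] := by
        intro h
        have := hmem (vchain L 0)
        rw [h] at this
        simp at this
      rw [List.getLast?_eq_some_getLast hne]
      exact congrArg some (List.getLast_ofFn hne)

omit [DecidableEq P] in
lemma chainSet_determines {L N : Labeling P} (hp : promotion L = promotion N)
    (hc : chainSet L = chainSet N) : L = N := by
  have hval : ∀ x, (promoteFun L x : ℕ) = promoteFun N x := by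
    intro x
    have : promotion L x = promotion N x := by rw [hp]
    rw [promotion, promotion, Equiv.ofBijective_apply, Equiv.ofBijective_apply] at this
    rw [this]
  have hon : ∀ x, OnChain L x ↔ OnChain N x := by
    intro x
    rw [← mem_chainSet, ← mem_chainSet, hc]
  -- the chains agree element by element
  have aux : ∀ (A B : Labeling P), (∀ x, OnChain A x ↔ OnChain B x) → ∀ k,
      vchain A k = vchain B k → ¬ IsMax (vchain A k) → vchain B (k + 1) ≤ vchain A (k + 1) := by
    intro A B hAB k hk hm
    have h1 : vchain A k < vchain A (k + 1) := by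
      rw [vchain_succ]; exact lt_succ hm
    obtain ⟨j, hj⟩ := (hAB _).mp (onChain_vchain A (k + 1))
    have hjk : k < j := by
      by_contra h
      rw [not_lt] at h
      have h2 := vchain_mono B h
      rw [hj, ← hk] at h2
      exact absurd h1 (not_lt_of_ge h2)
    rw [← hj]
    exact vchain_mono B hjk
  have hchain : ∀ k, vchain L k = vchain N k := by
    intro k
    induction k with
    | zero =>
      obtain ⟨i, hi⟩ := (hon _).mp (onChain_vchain L 0)
      obtain ⟨j, hj⟩ := (hon _).mpr (onChain_vchain N 0)
      refine le_antisymm ?_ ?_
      · rw [← hj]; exact vchain_mono L (Nat.zero_le j)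
      · rw [← hi]; exact vchain_mono N (Nat.zero_le i)
    | succ k ih =>
      by_cases hm : IsMax (vchain L k)
      · rw [vchain_succ, vchain_succ, succ_of_isMax hm, ← ih, succ_of_isMax hm]
      · have hm' : ¬ IsMax (vchain N k) := by rw [← ih]; exact hm
        exact le_antisymm (aux N L (fun x => (hon x).symm) k ih.symm hm') (aux L N hon k ih hm)
  have hlab : ∀ k, (L (vchain L k) : ℕ) = N (vchain L k) := by
    intro k
    induction k with
    | zero => rw [label_vchain_zero, hchain 0, label_vchain_zero]
    | succ k ih =>
      by_cases hm : IsMax (vchain L k)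
      · rw [vchain_succ, succ_of_isMax hm]
        exact ih
      · have h1 := hval (vchain L k)
        have hoL := onChain_vchain L k
        have hoN := (hon _).mp hoL
        rw [promoteFun_on hoL hm, promoteFun_on hoN hm] at h1
        have h2 := label_pos_of_succ hoL hm
        have h3 := label_pos_of_succ hoN hm
        have h4 : succ N (vchain L k) = vchain L (k + 1) := by
          rw [hchain (k + 1), vchain_succ, hchain k]
        rw [h4] at h1 h3
        rw [← vchain_succ] at h1 h2
        omega
  refine Equiv.ext (fun x => Fin.ext ?_)
  by_cases hx : OnChain L x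
  · obtain ⟨k, rfl⟩ := hx
    exact hlab k
  · have h1 := hval x
    rw [promoteFun_off hx, promoteFun_off (fun h => hx ((hon x).mpr h))] at h1
    have h2 := label_pos_of_not_onChain hx
    have h3 := label_pos_of_not_onChain (L := N) (fun h => hx ((hon x).mpr h))
    omega

lemma fiber_le (M : Labeling P) :
    Nat.card {L : Labeling P // promotion L = M} ≤ cc (lst M) := by
  classical
  have h := Fintype.card_le_of_injective
    (fun L : {L : Labeling P // promotion L = M} =>
      (⟨chainSet L.1, by
        have h1 := chainSet_mem_cset L.1
        rwa [L.2] at h1⟩ : {C // C ∈ cset (lst M)}))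
    (by
      intro L N hLN
      have h1 : chainSet L.1 = chainSet N.1 := congrArg Subtype.val hLN
      exact Subtype.ext (chainSet_determines (L.2.trans N.2.symm) h1))
  rw [Nat.card_eq_fintype_card]
  rwa [Fintype.card_coe] at h

lemma sum_fiber_le :
    6 * ∑ M : Labeling P, (Nat.card {L : Labeling P // promotion L = M}) ^ 2 ≤
      (Fintype.card P + 2).factorial := by
  refine le_trans (Nat.mul_le_mul_left 6 ?_) (W_bound (Finset.univ : Finset P))
  unfold W
  calc ∑ M : Labeling P, (Nat.card {L : Labeling P // promotion L = M}) ^ 2
      ≤ ∑ M : Labeling P, (cc (lst M)) ^ 2 :=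
        Finset.sum_le_sum (fun M _ => Nat.pow_le_pow_left (fiber_le M) 2)
    _ = ∑ l ∈ Finset.univ.image (lst : Labeling P → List P), (cc l) ^ 2 := by
        rw [Finset.sum_image (fun a _ b _ h => lst_injective h)]
    _ ≤ ∑ l ∈ ord (Finset.univ : Finset P), (cc l) ^ 2 := by
        refine Finset.sum_le_sum_of_subset ?_
        intro l hl
        rw [Finset.mem_image] at hl
        obtain ⟨M, -, rfl⟩ := hl
        exact lst_mem_ord M

/-- For every finite (nonempty) poset `P` with `n` elements, the degree of noninvertibility of
extended promotion on `P` is at most `(n + 2)(n + 1) / 6`. -/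
theorem result (P : Type*) [Fintype P] [DecidableEq P] [Nonempty P] [PartialOrder P] :
    degNI (promotion : Labeling P → Labeling P) ≤
      ((Fintype.card P : ℚ) + 2) * ((Fintype.card P : ℚ) + 1) / 6 := by
  have h := sum_fiber_le (P := P)
  have hcard : Fintype.card (Labeling P) = (Fintype.card P).factorial := by
    rw [Fintype.card_equiv (Fintype.equivFin P)]
  unfold degNI
  rw [hcard]
  have hpos : (0 : ℚ) < (Fintype.card P).factorial := by exact_mod_cast Nat.factorial_pos _
  rw [div_le_iff₀ hpos]
  have hf : (Fintype.card P + 2).factorial =
      (Fintype.card P + 2) * ((Fintype.card P + 1) * (Fintype.card P).factorial) := by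
    rw [Nat.factorial_succ, Nat.factorial_succ]
  rw [hf] at h
  have hq : (6 : ℚ) * ∑ M : Labeling P, (Nat.card {L : Labeling P // promotion L = M} : ℚ) ^ 2 ≤
      ((Fintype.card P : ℚ) + 2) * (((Fintype.card P : ℚ) + 1) * (Fintype.card P).factorial) := by
    exact_mod_cast h
  linarith

end Main

end Pool.Agent.Results.MP_180e15_co.ChainExtremal
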